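import Pool.Agent.helper54.WI.CheckA

namespace InvSeqPat

namespace CheckA

set_option maxRecDepth 100000 in
theorem g100 : go 5 [1,0,0] = true := by decide +kernel

set_option maxRecDepth 100000 in
theorem g200 : go 5 [2,0,0] = true := by decide +kernel

set_option maxRecDepth 100000 in
theorem g010 : go 5 [0,1,0] = true := by decide +kernel

set_option maxRecDepth 100000 in
theorem g110 : go 5 [1,1,0] = true := by decide +kernel

set_option maxRecDepth 100000 in
theorem g0210 : go 4 [0,2,1,0] = true := by decide +kernel

set_option maxRecDepth 100000 in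
theorem g1210 : go 4 [1,2,1,0] = true := by decide +kernel

set_option maxRecDepth 100000 in
theorem g2210 : go 4 [2,2,1,0] = true := by decide +kernel

set_option maxRecDepth 100000 in
theorem g3210 : go 4 [3,2,1,0] = true := by decide +kernel

theorem go_of {n : ℕ} {pre : List ℕ}
    (h : ∀ x, x < pre.length + 1 → Nat.blt 1 (cnt x pre) = true ∨ go n (x :: pre) = true) :
    go (n + 1) pre = true := by
  rw [go, List.all_eq_true]
  intro x hx
  rw [Bool.or_eq_true]
  exact h x (List.mem_range.1 hx)

theorem g210 : go 5 [2,1,0] = true := by
  apply go_of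
  intro x hx
  simp only [List.length_cons, List.length_nil] at hx
  interval_cases x
  · exact Or.inr g0210
  · exact Or.inr g1210
  · exact Or.inr g2210
  · exact Or.inr g3210

theorem g00 : go 6 [0,0] = true := by
  apply go_of
  intro x hx
  simp only [List.length_cons, List.length_nil] at hx
  interval_cases x
  · exact Or.inl rfl
  · exact Or.inr g100
  · exact Or.inr g200

theorem g10 : go 6 [1,0] = true := by
  apply go_of
  intro x hx
  simp only [List.length_cons, List.length_nil] at hx
  interval_cases x
  · exact Or.inr g010
  · exact Or.inr g110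
  · exact Or.inr g210

theorem g0 : go 7 [0] = true := by
  apply go_of
  intro x hx
  simp only [List.length_cons, List.length_nil] at hx
  interval_cases x
  · exact Or.inr g00
  · exact Or.inr g10

theorem gall : go 8 [] = true := by
  apply go_of
  intro x hx
  simp only [List.length_nil] at hx
  interval_cases x
  exact Or.inr g0

/-- The missing values. -/
theorem mss_compl (X : List ℕ) :
    mss X [0,1,2,3,4,5,6,7] = (List.range 8).filter (fun v => !X.contains v) := by
  rw [mss_eq]
  have : (List.range 8) = [0,1,2,3,4,5,6,7] := rfl
  rw [this]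
  apply List.filter_congr
  intro v _
  congr 1
  rw [Bool.eq_iff_iff, List.any_eq_true, List.contains_iff_mem]
  constructor
  · rintro ⟨y, hy, he⟩
    rw [Nat.beq_eq] at he
    exact he ▸ hy
  · intro h
    exact ⟨v, h, by simp⟩

theorem check_all_aux (X : List ℕ) (hl : X.length = 8) (hX : IsInv X)
    (hc : ((List.range 8).filter (fun v => !X.contains v)).length = 3) (h2 : ∀ v, X.count v ≤ 2)
    (hp : ∃ v1 v0 v2 : ℕ, [v1, v1, v0, v2].Sublist X ∧ v0 < v1 ∧ v1 < v2 ∧
      ∀ c ∈ (List.range 8).filter (fun v => !X.contains v), v2 < c) :
    (X ++ 8 :: (List.range 8).filter (fun v => !X.contains v)) ∈ L15 ∨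
      ∃ u, u ∈ IP rho' ∧ Contains (X ++ 8 :: (List.range 8).filter (fun v => !X.contains v)) u ∧
        u ≠ X ++ 8 :: (List.range 8).filter (fun v => !X.contains v) := by
  have h := go_sound 8 [] X gall hl (by simpa using hX) (by simpa using h2)
  rw [List.reverse_nil, List.nil_append] at h
  unfold leaf at h
  rw [fL_eq, fL_eq, mss_compl] at h
  set C := (List.range 8).filter (fun v => !X.contains v) with hC
  unfold leafC at h
  rw [fL_eq, Bool.or_eq_true, Bool.or_eq_true] at h
  rcases h with h | h | h
  · rw [Bool.not_eq_true', ← Bool.not_eq_true, Nat.beq_eq] at h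
    exact absurd hc h
  · exfalso
    rw [Bool.not_eq_true', ← Bool.not_eq_true, srch_iff] at h
    apply h
    obtain ⟨v1, v0, v2, hs, h01, h12, hcc⟩ := hp
    refine ⟨_, hs, ?_⟩
    have hne : C ≠ [] := by intro h0; rw [h0] at hc; simp at hc
    have hv : v2 < C.headD 0 := by
      apply hcc
      obtain ⟨c, cs, hcs⟩ := List.exists_cons_of_ne_nil hne
      rw [hcs]
      simp
    simp only [PP, okP, blt_iff, Bool.and_eq_true, Nat.beq_eq, and_true, true_and]
    exact ⟨h01, h12, hv⟩
  · unfold leafT at h
    rw [Bool.or_eq_true] at h
    rcases h with h | h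
    · left
      rw [List.any_eq_true] at h
      obtain ⟨l, hl, he⟩ := h
      rw [eqL_sound _ _ he]
      exact hl
    · right
      apply exists_of_badB' _ h
      intro x hx
      rw [List.mem_append, List.mem_cons] at hx
      rcases hx with hx | rfl | hx
      · obtain ⟨i, hi, rfl⟩ := List.getElem_of_mem hx
        have := hX i hi
        omega
      · norm_num
      · rw [hC, List.mem_filter, List.mem_range] at hx
        omega

end CheckA

end InvSeqPat
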