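import Pool.Agent.helper45.WI.Fast

namespace InvSeqPat

namespace CheckA

def L15 : List (List ℕ) :=
  [[0,0,1,1,3,3,2,4,8,5,6,7], [0,0,1,3,1,3,2,4,8,5,6,7], [0,0,1,3,3,2,4,1,8,5,6,7],
   [0,0,2,2,1,3,5,5,8,4,6,7], [0,0,2,2,1,3,6,6,8,4,5,7], [0,0,2,2,1,5,3,5,8,4,6,7],
   [0,0,2,2,1,5,5,3,8,4,6,7], [0,0,2,2,3,3,1,4,8,5,6,7], [0,0,2,2,4,4,1,3,8,5,6,7],
   [0,0,2,3,2,3,1,4,8,5,6,7], [0,0,2,3,3,1,4,2,8,5,6,7], [0,1,0,1,3,3,2,4,8,5,6,7],
   [0,1,0,3,1,3,2,4,8,5,6,7], [0,1,0,3,3,2,4,1,8,5,6,7], [0,1,1,3,3,2,4,0,8,5,6,7]]

/-- The three values of `{0,...,7}` that do not occur in `X`. -/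
def compl8 (X : List ℕ) : List ℕ := (List.range 8).filter (fun v => !X.contains v)

/-- Forces the evaluation of the spine of a list. -/
def fL : List ℕ → (List ℕ → Bool) → Bool
  | [], k => k []
  | x :: xs, k => fL xs (fun ys => k (x :: ys))

theorem fL_eq (l : List ℕ) : ∀ k : List ℕ → Bool, fL l k = k l := by
  induction l with
  | nil => intro k; rfl
  | cons x xs ih => intro k; rw [fL, ih]

/-- The number of letters of `M` smaller than `x`. -/
def clt (x : ℕ) : List ℕ → ℕ
  | [] => 0
  | y :: ys => cond (Nat.blt y x) (Nat.succ (clt x ys)) (clt x ys)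

theorem clt_eq (x : ℕ) (l : List ℕ) : clt x l = l.countP (fun v => Nat.blt v x) := by
  induction l with
  | nil => rfl
  | cons y ys ih =>
    rw [clt, List.countP_cons, ih]
    by_cases h : Nat.blt y x = true
    · rw [h]; rfl
    · rw [Bool.not_eq_true] at h
      rw [h]; rfl

/-- `x - #{M < x} ≤` index for all letters. -/
def invM (M : List ℕ) : ℕ → List ℕ → Bool
  | _, [] => true
  | m, x :: xs => Nat.ble (x - clt x M) m && invM M (Nat.succ m) xs

theorem invM_eq (M : List ℕ) (s : List ℕ) : ∀ m : ℕ,
    invM M m s = isInvB m (s.map (fun x => x - (M.countP (fun v => Nat.blt v x)))) := by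
  induction s with
  | nil => intro m; rfl
  | cons x xs ih =>
    intro m
    rw [invM, List.map_cons, isInvB, ih, clt_eq]
    congr 1
    rw [Bool.eq_iff_iff, Nat.ble_eq, decide_eq_true_iff]

/-- `x` occurs in the list. -/
def occ (x : ℕ) : List ℕ → Bool
  | [] => false
  | y :: ys => Nat.beq x y || occ x ys

theorem occ_eq (x : ℕ) (l : List ℕ) : occ x l = l.any (Nat.beq x) := by
  induction l with
  | nil => rfl
  | cons y ys ih => rw [occ, List.any_cons, ih]

/-- The letters of the first list not in `s`. -/
def mss (s : List ℕ) : List ℕ → List ℕ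
  | [] => []
  | v :: vs => cond (occ v s) (mss s vs) (v :: mss s vs)

theorem mss_eq (s : List ℕ) (l : List ℕ) : mss s l = l.filter (fun v => !(s.any (Nat.beq v))) := by
  induction l with
  | nil => rfl
  | cons y ys ih =>
    rw [mss, List.filter_cons, ih, occ_eq]
    cases h : s.any (Nat.beq y) <;> simp

/-- The fast test: `s` becomes an inversion sequence that contains `rho'`. -/
def tst (s : List ℕ) : Bool :=
  fL s fun s => fL (mss s [0,1,2,3,4,5,6,7,8]) fun M => invM M 0 s && srch Prho' [] s

theorem tst_eq (s : List ℕ) : tst s = (isInvB 0 (stdF s) && srch Prho' [] s) := by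
  unfold tst stdF missF
  rw [fL_eq, fL_eq, invM_eq, mss_eq]
  rfl

/-- Delete one letter of `t`, after the prefix `acc` (reversed). -/
def del1 (k : List ℕ → Bool) : List ℕ → List ℕ → Bool
  | _, [] => false
  | acc, x :: xs => k (List.reverseAux acc xs) || del1 k (x :: acc) xs

def del2 (k : List ℕ → Bool) : List ℕ → List ℕ → Bool
  | _, [] => false
  | acc, x :: xs => del1 k acc xs || del2 k (x :: acc) xs

theorem del1_sound (k : List ℕ → Bool) (t : List ℕ) : ∀ acc : List ℕ, del1 k acc t = true →
    ∃ s : List ℕ, s.Sublist (acc.reverse ++ t) ∧ s.length + 1 = acc.length + t.length ∧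
      k s = true := by
  induction t with
  | nil => intro acc h; simp [del1] at h
  | cons x xs ih =>
    intro acc h
    rw [del1, Bool.or_eq_true] at h
    rcases h with h | h
    · refine ⟨_, ?_, ?_, h⟩
      · rw [List.reverseAux_eq]
        exact List.Sublist.append (List.Sublist.refl _) (List.sublist_cons_self x xs)
      · rw [List.reverseAux_eq]
        simp
        omega
    · obtain ⟨s, h1, h2, h3⟩ := ih (x :: acc) h
      refine ⟨s, ?_, ?_, h3⟩
      · simpa using h1
      · simp at h2 ⊢
        omega

theorem del2_sound (k : List ℕ → Bool) (t : List ℕ) : ∀ acc : List ℕ, del2 k acc t = true →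
    ∃ s : List ℕ, s.Sublist (acc.reverse ++ t) ∧ s.length + 2 = acc.length + t.length ∧
      k s = true := by
  induction t with
  | nil => intro acc h; simp [del2] at h
  | cons x xs ih =>
    intro acc h
    rw [del2, Bool.or_eq_true] at h
    rcases h with h | h
    · obtain ⟨s, h1, h2, h3⟩ := del1_sound k xs acc h
      refine ⟨s, ?_, ?_, h3⟩
      · exact h1.trans (List.Sublist.append (List.Sublist.refl _) (List.sublist_cons_self x xs))
      · simp
        omega
    · obtain ⟨s, h1, h2, h3⟩ := ih (x :: acc) h
      refine ⟨s, ?_, ?_, h3⟩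
      · simpa using h1
      · simp at h2 ⊢
        omega

/-- Some subsequence of length `11` or `10` becomes an inversion sequence that contains `rho'`. -/
def badB' (t : List ℕ) : Bool := del1 tst [] t || del2 tst [] t

theorem exists_of_badB' {t : List ℕ} (h9 : ∀ x ∈ t, x ≤ 9)
    (h : badB' t = true) : ∃ u, u ∈ IP rho' ∧ Contains t u ∧ u ≠ t := by
  have main : ∀ s : List ℕ, s.Sublist t → s.length < t.length →
      tst s = true → ∃ u, u ∈ IP rho' ∧ Contains t u ∧ u ≠ t := by
    intro s hs hlt hb
    rw [tst_eq, Bool.and_eq_true, stdF_eq (fun x hx => h9 x (hs.subset hx)), isInvB_iff,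
      srch_rho'] at hb
    refine ⟨std s, ⟨hb.1, isCayley_std s, contains_std_iff.2 hb.2⟩, ⟨s, hs, sameOrder_std s⟩, ?_⟩
    intro he
    have := congrArg List.length he
    rw [length_std] at this
    omega
  unfold badB' at h
  rw [Bool.or_eq_true] at h
  rcases h with h | h
  · obtain ⟨s, h1, h2, h3⟩ := del1_sound _ _ _ h
    simp at h1 h2
    exact main s h1 (by omega) h3
  · obtain ⟨s, h1, h2, h3⟩ := del2_sound _ _ _ h
    simp at h1 h2
    exact main s h1 (by omega) h3

/-- Predicates for `v1 v1 v0 v2`, `v0 < v1 < v2 < m`. -/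
def PP (m : ℕ) : List (List ℕ → ℕ → Bool) :=
  [fun _ _ => true,
   fun env x => match env with
      | one :: _ => Nat.beq x one
      | [] => false,
   fun env x => match env with
      | one :: _ => Nat.blt x one
      | [] => false,
   fun env x => match env with
      | _ :: one :: _ => Nat.blt one x && Nat.blt x m
      | _ => false]

/-- Equality test. -/
def eqL : List ℕ → List ℕ → Bool
  | [], [] => true
  | x :: xs, y :: ys => Nat.beq x y && eqL xs ys
  | _, _ => false

theorem eqL_sound : ∀ (a b : List ℕ), eqL a b = true → a = b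
  | [], [], _ => rfl
  | [], _ :: _, h => by simp [eqL] at h
  | _ :: _, [], h => by simp [eqL] at h
  | x :: xs, y :: ys, h => by
    rw [eqL, Bool.and_eq_true, Nat.beq_eq] at h
    rw [h.1, eqL_sound xs ys h.2]

/-- Leaf test. -/
def leafT (t : List ℕ) : Bool := L15.any (eqL t) || badB' t

def leafC (X C : List ℕ) : Bool :=
  !(Nat.beq C.length 3) || (!(srch (PP (C.headD 0)) [] X) || fL (X ++ 8 :: C) leafT)

def leaf (X : List ℕ) : Bool := fL X fun X => fL (mss X [0,1,2,3,4,5,6,7]) fun C => leafC X C

def cnt (x : ℕ) : List ℕ → ℕ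
  | [] => 0
  | y :: ys => cond (Nat.beq x y) (Nat.succ (cnt x ys)) (cnt x ys)

theorem cnt_eq (x : ℕ) (l : List ℕ) : cnt x l = l.count x := by
  induction l with
  | nil => rfl
  | cons y ys ih =>
    rw [cnt, List.count_cons, ih]
    by_cases h : x = y
    · subst h
      simp
    · have h1 : Nat.beq x y = false := by
        rw [← Bool.not_eq_true, Nat.beq_eq]; exact h
      rw [h1]
      simp [Ne.symm h]

/-- Depth first generator of the inversion sequences of length `8` with multiplicities `≤ 2`;
`pre` is the reversed prefix. -/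
def go : ℕ → List ℕ → Bool
  | 0, pre => leaf pre.reverse
  | n + 1, pre => (List.range (pre.length + 1)).all fun x =>
      Nat.blt 1 (cnt x pre) || go n (x :: pre)

theorem go_sound : ∀ (n : ℕ) (pre rest : List ℕ), go n pre = true → rest.length = n →
    IsInv (pre.reverse ++ rest) → (∀ v, (pre.reverse ++ rest).count v ≤ 2) →
    leaf (pre.reverse ++ rest) = true := by
  intro n
  induction n with
  | zero =>
    intro pre rest h hl _ _
    have hr : rest = [] := List.eq_nil_of_length_eq_zero hl
    rw [hr, List.append_nil]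
    exact h
  | succ n ih =>
    intro pre rest h hl hinv hcnt
    cases rest with
    | nil => simp at hl
    | cons x rest =>
      have hx : x < pre.length + 1 := by
        have := hinv pre.length (by simp)
        rw [List.getElem_append_right (by simp)] at this
        simp at this
        omega
      rw [go, List.all_eq_true] at h
      have hx' := h x (List.mem_range.2 hx)
      rw [Bool.or_eq_true, blt_iff, cnt_eq] at hx'
      have e : pre.reverse ++ x :: rest = (x :: pre).reverse ++ rest := by simp
      rcases hx' with hx' | hx'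
      · exfalso
        have := hcnt x
        rw [List.count_append, List.count_cons, List.count_reverse] at this
        simp at this
        omega
      · rw [e] at hinv hcnt ⊢
        exact ih (x :: pre) rest hx' (by simpa using hl) hinv hcnt

end CheckA

end InvSeqPat
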